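import Mathlib

/-! Eight steps of the recurrence `t_{j+1} = (γ_j + t_j) / (t_j² t_{j-1})`, `γ_j ∈ {32, 1/32}`. -/

set_option autoImplicit false

namespace Pool.Agent.Q178.Ly4

/-- one step of the recurrence `t_{j+1} = (γ + t_j) / (t_j² t_{j-1})` -/
noncomputable def st (g s t : ℝ) : ℝ := (g + t) / (t ^ 2 * s)

lemma st_pos {g s t : ℝ} (hg : 0 < g) (hs : 0 < s) (ht : 0 < t) : 0 < st g s t := by
  unfold st; positivity

lemma st_big (g s t : ℝ) (hs : 0 < s) (ht : 0 < t) : st g s t = (1 + g / t) / (t * s) := by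
  unfold st; field_simp; ring

lemma st_small (g s t : ℝ) (hg : 0 < g) (hs : 0 < s) (ht : 0 < t) :
    st g s t = g * (1 + t / g) / (t ^ 2 * s) := by
  unfold st; field_simp

lemma ge1 {a b : ℝ} (ha : 1 ≤ a) (hb : 1 ≤ b) : 1 ≤ a * b := by nlinarith

lemma le2 {a b A B : ℝ} (hb0 : 0 < b) (hA : 0 < A) (ha : a ≤ A) (hb : b ≤ B) : a * b ≤ A * B :=
  mul_le_mul ha hb hb0.le hA.le

/-- a number in `[1, 2]` -/
def I (a : ℝ) : Prop := 1 ≤ a ∧ a ≤ 2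

lemma I.pos {a : ℝ} (h : I a) : 0 < a := by linarith [h.1]

lemma I_of {u : ℝ} (h0 : 0 < u) (h1 : u ≤ 1) : I (1 + u) := ⟨by linarith, by linarith⟩

/-- eight steps from two small values `p`, `q` -/
lemma eight (p q : ℝ) (hp : 0 < p) (hq : 0 < q) (hp' : p ≤ 1 / 4096) (hq' : q ≤ 1 / 4096)
    (t2 t3 t4 t5 t6 t7 t8 t9 : ℝ) (h2 : t2 = st 32 p q) (h3 : t3 = st (1 / 32) q t2)
    (h4 : t4 = st 32 t2 t3) (h5 : t5 = st (1 / 32) t3 t4) (h6 : t6 = st 32 t4 t5)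
    (h7 : t7 = st (1 / 32) t5 t6) (h8 : t8 = st 32 t6 t7) (h9 : t9 = st (1 / 32) t7 t8) :
    0 < t8 ∧ t8 ≤ p / 2 ∧ 0 < t9 ∧ t9 ≤ q / 2 := by
  have c1 : (0:ℝ) < 32 := by norm_num
  have c2 : (0:ℝ) < 1 / 32 := by norm_num
  have p2 : 0 < t2 := h2 ▸ st_pos c1 hp hq
  have p3 : 0 < t3 := h3 ▸ st_pos c2 hq p2
  have p4 : 0 < t4 := h4 ▸ st_pos c1 p2 p3
  have p5 : 0 < t5 := h5 ▸ st_pos c2 p3 p4
  have p6 : 0 < t6 := h6 ▸ st_pos c1 p4 p5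
  have p7 : 0 < t7 := h7 ▸ st_pos c2 p5 p6
  have p8 : 0 < t8 := h8 ▸ st_pos c1 p6 p7
  have p9 : 0 < t9 := h9 ▸ st_pos c2 p7 p8
  have hp1 : p ≤ 1 := by linarith
  have hq1 : q ≤ 1 := by linarith
  have hqp : q * p ≤ 1 / 4096 * 1 := le2 hp (by norm_num) hq' hp1
  have hqqp : q * (q * p) ≤ 1 * (1 / 4096 * 1) := le2 (by positivity) one_pos hq1 hqp
  have hqpp : q * p * p ≤ 1 / 4096 * 1 * 1 := le2 hp (by norm_num) hqp hp1
  -- the correction factors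
  obtain ⟨a1, ha1⟩ : ∃ a, a = 1 + q / 32 := ⟨_, rfl⟩
  have b1 : I a1 := ha1 ▸ I_of (by positivity) (by linarith)
  have hb1 := b1.pos
  have e2 : t2 = 32 * a1 / (q ^ 2 * p) := by rw [h2, st_small _ _ _ c1 hp hq, ha1]
  have g2 : 1 ≤ t2 := by
    rw [e2, le_div_iff₀ (by positivity)]
    have : q ^ 2 * p = q * (q * p) := by ring
    rw [this]
    linarith [b1.1]
  obtain ⟨a2, ha2⟩ : ∃ a, a = 1 + (1 / 32) / t2 := ⟨_, rfl⟩
  have b2 : I a2 := ha2 ▸ I_of (by positivity) (by rw [div_le_iff₀ p2]; linarith)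
  have hb2 := b2.pos
  have e3 : t3 = a2 * q * p / (32 * a1) := by
    rw [h3, st_big _ _ _ hq p2, ← ha2, e2]; field_simp
  have g3 : t3 ≤ 1 := by
    rw [e3, div_le_iff₀ (by positivity)]
    have h1 : a2 * (q * p) ≤ 2 * (1 / 4096 * 1) := le2 (by positivity) two_pos b2.2 hqp
    have : a2 * q * p = a2 * (q * p) := by ring
    rw [this]
    linarith [b1.1]
  obtain ⟨a3, ha3⟩ : ∃ a, a = 1 + t3 / 32 := ⟨_, rfl⟩
  have b3 : I a3 := ha3 ▸ I_of (by positivity) (by linarith)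
  have hb3 := b3.pos
  have e4 : t4 = 1024 * a1 * a3 / (a2 ^ 2 * p) := by
    rw [h4, st_small _ _ _ c1 p2 p3, ← ha3, e3, e2]; field_simp; ring
  have s2 : a2 * a2 ≤ 2 * 2 := le2 hb2 two_pos b2.2 b2.2
  have g4 : 1 ≤ t4 := by
    rw [e4, le_div_iff₀ (by positivity)]
    have h1 : a2 * a2 * p ≤ 2 * 2 * 1 := le2 hp (by norm_num) s2 hp1
    have h2 : 1 ≤ a1 * a3 := ge1 b1.1 b3.1
    have h3 : a2 ^ 2 * p = a2 * a2 * p := by ring
    have h4 : 1024 * a1 * a3 = 1024 * (a1 * a3) := by ring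
    rw [h3, h4]
    linarith
  obtain ⟨a4, ha4⟩ : ∃ a, a = 1 + (1 / 32) / t4 := ⟨_, rfl⟩
  have b4 : I a4 := ha4 ▸ I_of (by positivity) (by rw [div_le_iff₀ p4]; linarith)
  have hb4 := b4.pos
  have e5 : t5 = a4 * a2 / (32 * a3 * q) := by
    rw [h5, st_big _ _ _ p3 p4, ← ha4, e4, e3]; field_simp; ring
  have g5 : 32 / t5 ≤ 1 := by
    rw [e5, div_div_eq_mul_div, div_le_iff₀ (by positivity)]
    have h1 : a3 * q ≤ 2 * (1 / 4096) := le2 hq two_pos b3.2 hq'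
    have h2 : 1 ≤ a4 * a2 := ge1 b4.1 b2.1
    have h3 : 32 * (32 * a3 * q) = 1024 * (a3 * q) := by ring
    rw [h3]
    linarith
  obtain ⟨a5, ha5⟩ : ∃ a, a = 1 + 32 / t5 := ⟨_, rfl⟩
  have b5 : I a5 := ha5 ▸ I_of (by positivity) g5
  have hb5 := b5.pos
  have e6 : t6 = a5 * a2 * q * p / (32 * a1 * a4) := by
    rw [h6, st_big _ _ _ p4 p5, ← ha5, e5, e4]; field_simp; ring
  have s52 : a5 * a2 ≤ 2 * 2 := le2 hb2 two_pos b5.2 b2.2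
  have g6 : t6 / (1 / 32) ≤ 1 := by
    rw [e6, div_le_iff₀ c2, div_le_iff₀ (by positivity)]
    have h1 : (a5 * a2) * (q * p) ≤ (2 * 2) * (1 / 4096 * 1) :=
      le2 (by positivity) (by norm_num) s52 hqp
    have h2 : a5 * a2 * q * p = (a5 * a2) * (q * p) := by ring
    have h3 : 1 ≤ a1 * a4 := ge1 b1.1 b4.1
    have h4 : 1 * (1 / 32) * (32 * a1 * a4) = a1 * a4 := by ring
    rw [h2, h4]
    linarith
  obtain ⟨a6, ha6⟩ : ∃ a, a = 1 + t6 / (1 / 32) := ⟨_, rfl⟩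
  have b6 : I a6 := ha6 ▸ I_of (by positivity) g6
  have hb6 := b6.pos
  have e7 : t7 = 1024 * a6 * a1 ^ 2 * a4 * a3 / (a5 ^ 2 * a2 ^ 3 * q * p ^ 2) := by
    rw [h7, st_small _ _ _ c2 p5 p6, ← ha6, e6, e5]; field_simp; ring
  have g7 : 32 / t7 ≤ 1 := by
    rw [e7, div_div_eq_mul_div, div_le_iff₀ (by positivity)]
    have u1 : (a5 * a2) * (a5 * a2) ≤ (2 * 2) * (2 * 2) :=
      le2 (by positivity) (by norm_num) s52 s52
    have u2 : (a5 * a2) * (a5 * a2) * a2 ≤ (2 * 2) * (2 * 2) * 2 :=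
      le2 hb2 (by norm_num) u1 b2.2
    have u3 : (a5 * a2) * (a5 * a2) * a2 * (q * p * p) ≤
        (2 * 2) * (2 * 2) * 2 * (1 / 4096 * 1 * 1) :=
      le2 (by positivity) (by norm_num) u2 hqpp
    have h3 : 32 * (a5 ^ 2 * a2 ^ 3 * q * p ^ 2) =
      32 * ((a5 * a2) * (a5 * a2) * a2 * (q * p * p)) := by ring
    have h4 : 1 ≤ a6 * (a1 * a1) * a4 * a3 :=
      ge1 (ge1 (ge1 b6.1 (ge1 b1.1 b1.1)) b4.1) b3.1
    have h5 : 1 * (1024 * a6 * a1 ^ 2 * a4 * a3) = 1024 * (a6 * (a1 * a1) * a4 * a3) := by ring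
    rw [h3, h5]
    linarith
  obtain ⟨a7, ha7⟩ : ∃ a, a = 1 + 32 / t7 := ⟨_, rfl⟩
  have b7 : I a7 := ha7 ▸ I_of (by positivity) g7
  have hb7 := b7.pos
  have e8 : t8 = a7 * a5 * a2 ^ 2 * p / (32 * a6 * a1 * a3) := by
    rw [h8, st_big _ _ _ p6 p7, ← ha7, e7, e6]; field_simp; ring
  have k8 : t8 ≤ p / 2 := by
    rw [e8, div_le_div_iff₀ (by positivity) (by norm_num)]
    have u1 : a7 * a5 ≤ 2 * 2 := le2 hb5 two_pos b7.2 b5.2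
    have u3 : a7 * a5 * (a2 * a2) ≤ 2 * 2 * (2 * 2) :=
      le2 (by positivity) (by norm_num) u1 s2
    have u4 : 1 ≤ a6 * a1 * a3 := ge1 (ge1 b6.1 b1.1) b3.1
    have v1 : a7 * a5 * (a2 * a2) * p ≤ 2 * 2 * (2 * 2) * p := mul_le_mul_of_nonneg_right u3 hp.le
    have v2 : p * 1 ≤ p * (a6 * a1 * a3) := mul_le_mul_of_nonneg_left u4 hp.le
    have h3 : a7 * a5 * a2 ^ 2 * p * 2 = 2 * (a7 * a5 * (a2 * a2) * p) := by ring
    have h4 : p * (32 * a6 * a1 * a3) = 32 * (p * (a6 * a1 * a3)) := by ring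
    rw [h3, h4]
    linarith
  have g8 : t8 / (1 / 32) ≤ 1 := by
    rw [div_le_iff₀ c2]; linarith
  obtain ⟨a8, ha8⟩ : ∃ a, a = 1 + t8 / (1 / 32) := ⟨_, rfl⟩
  have b8 : I a8 := ha8 ▸ I_of (by positivity) g8
  have hb8 := b8.pos
  have e9 : t9 = a8 * a6 * a3 * q / (32 * a7 ^ 2 * a2 * a4) := by
    rw [h9, st_small _ _ _ c2 p7 p8, ← ha8, e8, e7]; field_simp; ring
  refine ⟨p8, k8, p9, ?_⟩
  rw [e9, div_le_div_iff₀ (by positivity) (by norm_num)]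
  have u1 : a8 * a6 ≤ 2 * 2 := le2 hb6 two_pos b8.2 b6.2
  have u3 : a8 * a6 * a3 ≤ 2 * 2 * 2 := le2 hb3 (by norm_num) u1 b3.2
  have u4 : 1 ≤ a7 * a7 * a2 * a4 := ge1 (ge1 (ge1 b7.1 b7.1) b2.1) b4.1
  have v1 : a8 * a6 * a3 * q ≤ 2 * 2 * 2 * q := mul_le_mul_of_nonneg_right u3 hq.le
  have v2 : q * 1 ≤ q * (a7 * a7 * a2 * a4) := mul_le_mul_of_nonneg_left u4 hq.le
  have h3 : q * (32 * a7 ^ 2 * a2 * a4) = 32 * (q * (a7 * a7 * a2 * a4)) := by ring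
  rw [h3]
  linarith

end Pool.Agent.Q178.Ly4
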