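import Mathlib

/-! Four periods of the Lyness equation with the coefficients `32, 0, 1, 0, 0, 0, 0`. -/

set_option autoImplicit false

namespace Pool.Agent.Q178.Ly7

/-- first component of the state after one period -/
noncomputable def f (x y : ℝ) : ℝ := y * (32 + y) / (32 + y + x * y)

/-- second component of the state after one period -/
noncomputable def g (x y : ℝ) : ℝ := (32 + y) ^ 2 / (x * (32 + y + x * y))

lemma f_pos {x y : ℝ} (hx : 0 < x) (hy : 0 < y) : 0 < f x y := by unfold f; positivity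

lemma g_pos {x y : ℝ} (hx : 0 < x) (hy : 0 < y) : 0 < g x y := by unfold g; positivity

lemma f_le {x y : ℝ} (hx : 0 < x) (hy : 0 < y) : f x y ≤ y := by
  unfold f
  rw [div_le_iff₀ (by positivity)]
  have : 0 < y * (x * y) := by positivity
  nlinarith

lemma f_ge {x y : ℝ} (hx : 0 < x) (hy : 0 < y) : y / (1 + x) ≤ f x y := by
  unfold f
  rw [div_le_div_iff₀ (by positivity) (by positivity)]
  have : 0 < x * y := by positivity
  nlinarith

lemma f_ge_half {x y : ℝ} (hx : 0 < x) (hy : 0 < y) (hx1 : x ≤ 1) : y / 2 ≤ f x y := by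
  refine le_trans ?_ (f_ge hx hy)
  exact div_le_div_of_nonneg_left hy.le (by positivity) (by linarith)

lemma f_le' {x y : ℝ} (hx : 0 < x) (hy : 32 ≤ y) : f x y ≤ 2 * y / x := by
  have hy0 : 0 < y := by linarith
  unfold f
  rw [div_le_div_iff₀ (by positivity) hx]
  have h1 : 0 < y * x := by positivity
  have h2 : y * (32 + y) * x ≤ y * (2 * y) * x := by
    have : y * (32 + y) ≤ y * (2 * y) := mul_le_mul_of_nonneg_left (by linarith) hy0.le
    exact mul_le_mul_of_nonneg_right this hx.le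
  have h3 : 0 < 2 * y * (32 + y) := by positivity
  nlinarith

lemma g_eq {x y : ℝ} (hx : 0 < x) (hy : 0 < y) : g x y = f x y * (32 + y) / (x * y) := by
  unfold f g; field_simp

lemma g_ge {x y : ℝ} (hx : 0 < x) (hy : 0 < y) : f x y / x ≤ g x y := by
  rw [g_eq hx hy, div_le_div_iff₀ hx (by positivity)]
  have := f_pos hx hy
  have h : 0 < f x y * x := by positivity
  nlinarith

lemma g_le {x y : ℝ} (hx : 0 < x) (hy : 32 ≤ y) : g x y ≤ 2 * f x y / x := by
  have hy0 : 0 < y := by linarith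
  rw [g_eq hx hy0, div_le_div_iff₀ (by positivity) hx]
  have := f_pos hx hy0
  have h : 0 < f x y * x := by positivity
  nlinarith

lemma g_le' {x y : ℝ} (hx : 0 < x) (hy : 0 < y) : g x y ≤ (32 + y) / x := by
  unfold g
  rw [div_le_div_iff₀ (by positivity) hx]
  have h : 0 < (32 + y) * x * (x * y) := by positivity
  nlinarith

lemma g_ge' {x y : ℝ} (hx : 0 < x) (hy : 0 < y) : 32 / (x * (1 + x)) ≤ g x y := by
  unfold g
  rw [div_le_div_iff₀ (by positivity) (by positivity)]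
  have h1 : 32 + y + x * y ≤ (32 + y) * (1 + x) := by nlinarith
  have h2 : 32 * (x * (32 + y + x * y)) ≤ 32 * (x * ((32 + y) * (1 + x))) := by
    refine mul_le_mul_of_nonneg_left (mul_le_mul_of_nonneg_left h1 hx.le) (by norm_num)
  have h3 : 0 < y * ((32 + y) * (x * (1 + x))) := by positivity
  nlinarith

/-- the region -/
def R (s : ℝ × ℝ) : Prop := 0 < s.1 ∧ 8192 ≤ s.2 ∧ s.1 * s.2 ≤ 1 / 128

/-- one period -/
noncomputable def F (s : ℝ × ℝ) : ℝ × ℝ := (f s.1 s.2, g s.1 s.2)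

lemma four (s : ℝ × ℝ) (hs : R s) : R (F (F (F (F s)))) ∧ 2 * s.2 ≤ (F (F (F (F s)))).2 := by
  obtain ⟨x, y⟩ := s
  obtain ⟨hx, hy, hxy⟩ := hs
  simp only at hx hy hxy
  have hy0 : 0 < y := by linarith
  have hxs : x ≤ 1 / 8192 := by
    by_contra h
    rw [not_le] at h
    have : 1 / 8192 * 8192 ≤ x * y := mul_le_mul h.le hy (by norm_num) hx.le
    norm_num at this
    linarith
  simp only [F, R]
  obtain ⟨x1, hx1⟩ : ∃ u, u = f x y := ⟨_, rfl⟩
  obtain ⟨y1, hy1⟩ : ∃ u, u = g x y := ⟨_, rfl⟩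
  rw [← hx1, ← hy1]
  obtain ⟨x2, hx2⟩ : ∃ u, u = f x1 y1 := ⟨_, rfl⟩
  obtain ⟨y2, hy2⟩ : ∃ u, u = g x1 y1 := ⟨_, rfl⟩
  rw [← hx2, ← hy2]
  obtain ⟨x3, hx3⟩ : ∃ u, u = f x2 y2 := ⟨_, rfl⟩
  obtain ⟨y3, hy3⟩ : ∃ u, u = g x2 y2 := ⟨_, rfl⟩
  rw [← hx3, ← hy3]
  have px1 : 0 < x1 := hx1 ▸ f_pos hx hy0
  have py1 : 0 < y1 := hy1 ▸ g_pos hx hy0
  have px2 : 0 < x2 := hx2 ▸ f_pos px1 py1
  have py2 : 0 < y2 := hy2 ▸ g_pos px1 py1
  have px3 : 0 < x3 := hx3 ▸ f_pos px2 py2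
  have py3 : 0 < y3 := hy3 ▸ g_pos px2 py2
  have px4 := f_pos px3 py3
  have py4 := g_pos px3 py3
  -- step 1
  have a1 : x1 ≤ y := hx1 ▸ f_le hx hy0
  have a2 : y / 2 ≤ x1 := hx1 ▸ f_ge_half hx hy0 (by linarith)
  have a3 : x1 / x ≤ y1 := by rw [hx1, hy1]; exact g_ge hx hy0
  have a4 : y / (2 * x) ≤ y1 := by
    refine le_trans ?_ a3
    rw [div_le_div_iff₀ (by positivity) hx]
    nlinarith
  have a5 : 32 ≤ y1 := by
    refine le_trans ?_ a4
    rw [le_div_iff₀ (by positivity)]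
    linarith
  -- step 2
  have b1 : 1 / (4 * x) ≤ x2 := by
    refine le_trans ?_ (hx2 ▸ f_ge px1 py1)
    rw [div_le_div_iff₀ (by positivity) (by positivity)]
    rw [div_le_iff₀ (by positivity)] at a4
    linarith
  have b2 : x2 / x1 ≤ y2 := by rw [hx2, hy2]; exact g_ge px1 py1
  have b3 : y2 ≤ 2 * x2 / x1 := by rw [hx2, hy2]; exact g_le px1 a5
  have b4 : 1 ≤ x2 := by
    refine le_trans ?_ b1
    rw [le_div_iff₀ (by positivity)]
    linarith
  have b5 : 32 ≤ y2 := by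
    refine le_trans ?_ b2
    rw [le_div_iff₀ px1]
    rw [div_le_iff₀ (by positivity)] at b1
    have h1 : 32 * x1 ≤ 32 * y := by linarith
    have h2 : 32 * y * (4 * x) ≤ 1 := by nlinarith
    have h3 : 32 * y * (4 * x) ≤ x2 * (4 * x) := h2.trans b1
    have h4 : 32 * y ≤ x2 := le_of_mul_le_mul_right h3 (by positivity)
    linarith
  -- step 3
  have c1 : x3 ≤ 8 / y := by
    have h1 : x3 ≤ 2 * y2 / x2 := hx3 ▸ f_le' px2 b5
    have h2 : y2 / x2 ≤ 2 / x1 := by
      rw [div_le_div_iff₀ px2 px1]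
      rw [le_div_iff₀ px1] at b3
      linarith
    have h3 : 2 / x1 ≤ 4 / y := by
      rw [div_le_div_iff₀ px1 hy0]; linarith
    calc x3 ≤ 2 * y2 / x2 := h1
      _ = 2 * (y2 / x2) := by ring
      _ ≤ 2 * (4 / y) := by linarith
      _ = 8 / y := by ring
  have c2 : 1 / (2 * y) ≤ x3 := by
    have h1 : y2 / (1 + x2) ≤ x3 := hx3 ▸ f_ge px2 py2
    refine le_trans ?_ h1
    rw [div_le_div_iff₀ (by positivity) (by positivity)]
    rw [div_le_iff₀ px1] at b2
    have h2 : x2 ≤ y2 * y := b2.trans (mul_le_mul_of_nonneg_left a1 py2.le)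
    linarith
  have c3 : y3 ≤ 64 * x / y := by
    have h1 : y3 ≤ 2 * x3 / x2 := by rw [hx3, hy3]; exact g_le px2 b5
    refine h1.trans ?_
    rw [div_le_div_iff₀ px2 hy0]
    rw [le_div_iff₀ hy0] at c1
    rw [div_le_iff₀ (by positivity)] at b1
    have h2 : 2 * x3 * y ≤ 16 := by linarith
    have h3 : 16 ≤ 64 * x * x2 := by linarith
    linarith
  -- step 4
  have d1 : f x3 y3 ≤ 64 * x / y := (f_le px3 py3).trans c3
  have d0 : 64 * x / y ≤ 1 := by rw [div_le_iff₀ hy0]; linarith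
  have d2 : g x3 y3 ≤ 66 * y := by
    refine (g_le' px3 py3).trans ?_
    rw [div_le_iff₀ px3]
    rw [div_le_iff₀ (by positivity)] at c2
    have h1 : y3 ≤ 1 := c3.trans d0
    linarith
  have d3 : 2 * y ≤ g x3 y3 := by
    refine le_trans ?_ (g_ge' px3 py3)
    rw [le_div_iff₀ (by positivity)]
    have c1' := c1
    rw [le_div_iff₀ hy0] at c1'
    have h1 : 1 + x3 ≤ 2 := by
      have : x3 ≤ 8 / y := c1
      have h : 8 / y ≤ 1 := by rw [div_le_iff₀ hy0]; linarith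
      linarith
    have h2 : x3 * y * (1 + x3) ≤ 8 * 2 :=
      mul_le_mul c1' h1 (by positivity) (by norm_num)
    have h3 : 2 * y * (x3 * (1 + x3)) = 2 * (x3 * y * (1 + x3)) := by ring
    rw [h3]; linarith
  refine ⟨⟨px4, by linarith, ?_⟩, d3⟩
  have h1 : f x3 y3 * g x3 y3 ≤ 64 * x / y * (66 * y) := mul_le_mul d1 d2 py4.le (by positivity)
  have h2 : 64 * x / y * (66 * y) = 4224 * x := by field_simp; norm_num
  have h3 : 8192 * x ≤ x * y := by nlinarith
  linarith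

end Pool.Agent.Q178.Ly7
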